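import Mathlib

namespace Pool.Agent.Results.MP_798444_co.TwinCounterexample

/-- `f` is harmonic on the locally finite graph `G`: its value at every vertex is the mean of its
values at the neighbours. -/
def IsHarmonic {V : Type} (G : SimpleGraph V) [G.LocallyFinite] (f : V → ℤ) : Prop :=
  ∀ v : V, (f v : ℚ) = (1 / (G.degree v : ℚ)) * ∑ u ∈ G.neighborFinset v, (f u : ℚ)

/-- The automorphism group of `G` acts transitively on the vertices. -/
def VertexTransitive {V : Type} (G : SimpleGraph V) : Prop :=
  ∀ u v : V, ∃ φ : G ≃g G, φ u = v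

/-- The two-way infinite path with every vertex doubled (no edge between the two copies). -/
def dbl : SimpleGraph (ℤ × Bool) where
  Adj p q := p.1 = q.1 + 1 ∨ q.1 = p.1 + 1
  symm := ⟨fun _ _ h => h.symm⟩
  loopless := ⟨fun p h => by
    rcases h with h | h <;> omega⟩

theorem dbl_adj (p q : ℤ × Bool) : dbl.Adj p q ↔ (p.1 = q.1 + 1 ∨ q.1 = p.1 + 1) := Iff.rfl

theorem finite_nbr (p : ℤ × Bool) : (dbl.neighborSet p).Finite := by
  apply Set.Finite.subset
    (Set.toFinite ({(p.1 + 1, true), (p.1 + 1, false), (p.1 - 1, true), (p.1 - 1, false)} :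
      Set (ℤ × Bool)))
  rintro ⟨n, b⟩ h
  rw [SimpleGraph.mem_neighborSet, dbl_adj] at h
  simp only [Set.mem_insert_iff, Set.mem_singleton_iff, Prod.mk.injEq]
  simp only at h
  rcases h with h | h <;> rcases b with _ | _
  · right; right; right; exact ⟨by omega, rfl⟩
  · right; right; left; exact ⟨by omega, rfl⟩
  · right; left; exact ⟨by omega, rfl⟩
  · left; exact ⟨by omega, rfl⟩

theorem step (m : ℤ) (a b : Bool) : dbl.Reachable (m, a) (m + 1, b) :=
  SimpleGraph.Adj.reachable ((dbl_adj _ _).2 (Or.inr rfl))

theorem same (m : ℤ) (a b : Bool) : dbl.Reachable (m, a) (m, b) :=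
  (step m a a).trans (step m b a).symm

theorem reach (m : ℤ) (a : Bool) : dbl.Reachable (0, false) (m, a) := by
  induction m using Int.induction_on with
  | zero => exact same 0 false a
  | succ i ih => exact ih.trans (step i a a)
  | pred i ih =>
    refine ih.trans ?_
    have := step (-(i : ℤ) - 1) a a
    rw [show -(i : ℤ) - 1 + 1 = -(i : ℤ) by ring] at this
    exact this.symm

theorem connected : dbl.Connected := by
  haveI : Nonempty (ℤ × Bool) := ⟨(0, false)⟩
  refine ⟨fun p q => ?_⟩
  obtain ⟨m, a⟩ := p
  obtain ⟨n, b⟩ := q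
  exact (reach m a).symm.trans (reach n b)

theorem transitive : VertexTransitive dbl := by
  rintro ⟨m, a⟩ ⟨n, b⟩
  let e : Bool ≃ Bool := ⟨fun x => xor x (xor a b), fun x => xor x (xor a b),
    fun x => by cases x <;> cases a <;> cases b <;> rfl,
    fun x => by cases x <;> cases a <;> cases b <;> rfl⟩
  refine ⟨⟨(Equiv.addRight (n - m)).prodCongr e, ?_⟩, ?_⟩
  · intro p q
    rw [dbl_adj, dbl_adj]
    show (p.1 + (n - m) = q.1 + (n - m) + 1 ∨ q.1 + (n - m) = p.1 + (n - m) + 1) ↔ _
    constructor <;> intro h <;> rcases h with h | h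
    · left; omega
    · right; omega
    · left; omega
    · right; omega
  · show (m + (n - m), xor a (xor a b)) = (n, b)
    refine Prod.ext (by simp) ?_
    cases a <;> cases b <;> rfl

/-- There is an infinite, connected, locally finite, vertex-transitive graph on which every
harmonic function to the integers takes some value at two distinct vertices. -/
theorem result : ∃ (V : Type) (G : SimpleGraph V) (_ : G.LocallyFinite),
    Infinite V ∧ G.Connected ∧ VertexTransitive G ∧
      ∀ f : V → ℤ, IsHarmonic G f → ∃ u v : V, u ≠ v ∧ f u = f v := by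
  classical
  refine ⟨ℤ × Bool, dbl, fun p => (finite_nbr p).fintype, inferInstance, connected, transitive,
    ?_⟩
  intro f hf
  refine ⟨(0, false), (0, true), by simp, ?_⟩
  letI : dbl.LocallyFinite := fun p => (finite_nbr p).fintype
  have hN : dbl.neighborFinset (0, false) = dbl.neighborFinset (0, true) := by
    ext q
    rw [SimpleGraph.mem_neighborFinset, SimpleGraph.mem_neighborFinset, dbl_adj, dbl_adj]
  have h1 := hf (0, false)
  have h2 := hf (0, true)
  have hd : dbl.degree (0, false) = dbl.degree (0, true) := by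
    rw [← SimpleGraph.card_neighborFinset_eq_degree, ← SimpleGraph.card_neighborFinset_eq_degree,
      hN]
  rw [hN, hd, ← h2] at h1
  exact_mod_cast h1

end Pool.Agent.Results.MP_798444_co.TwinCounterexample
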